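import Pool.Agent.Y194.BL.Lay

/-!
# Zeros of polynomials over the algebraic integers at roots of unity of prime power order, at one maximal
ideal
-/

set_option autoImplicit false

open Polynomial IntermediateField

namespace Pool.Agent.Y194.UL

open Pool.Agent.Y194.BL (OO int_dvd prime_dvd conj_count)

/-- divisibility of integers up to elements outside a prime ideal above `ℓ` -/
lemma pow_le_of_dvd {ℓ : ℕ} (hℓ : ℓ.Prime) (𝔪 : Ideal OO) (hp : 𝔪.IsPrime) (hl : (ℓ : OO) ∈ 𝔪)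
    {A : ℕ} {C : ℤ} (hC : C ≠ 0) {s : OO} (hs : s ∉ 𝔪) {L : ℕ}
    (h : (ℓ : OO) ^ A ∣ (C : OO) ^ L * s) : A ≤ L * padicValInt ℓ C := by
  have : Fact ℓ.Prime := ⟨hℓ⟩
  by_contra hlt
  push Not at hlt
  set v : ℕ := padicValInt ℓ C with hv
  obtain ⟨u, hu⟩ : (ℓ : ℤ) ^ v ∣ C := by
    rw [hv]
    exact (padicValInt_dvd_iff v C).2 (Or.inr le_rfl)
  have hℓu : ¬ (ℓ : ℤ) ∣ u := by
    rintro ⟨w, rfl⟩
    have h1 : (ℓ : ℤ) ^ (v + 1) ∣ C := ⟨w, by rw [hu, pow_succ]; ring⟩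
    rcases (padicValInt_dvd_iff (v + 1) C).1 h1 with h2 | h2
    · exact hC h2
    · omega
  obtain ⟨w, hw⟩ := h
  have hℓ0 : (ℓ : OO) ≠ 0 := by
    intro h1
    have h2 : ((ℓ : OO) : ℂ) = 0 := by rw [h1]; rfl
    have h3 : (ℓ : ℂ) = 0 := h2
    exact hℓ.ne_zero (by exact_mod_cast h3)
  obtain ⟨t, ht⟩ : ∃ t, A = L * v + (t + 1) := ⟨A - L * v - 1, by omega⟩
  have h1 : (ℓ : OO) ^ (L * v) * ((u : OO) ^ L * s) =
      (ℓ : OO) ^ (L * v) * ((ℓ : OO) ^ (t + 1) * w) := by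
    have h2 : (C : OO) = (ℓ : OO) ^ v * (u : OO) := by
      rw [hu]
      push_cast
      ring
    rw [h2, ht, mul_pow, ← pow_mul, mul_comm v L, pow_add] at hw
    rw [← mul_assoc, hw, mul_assoc]
  have h2 := mul_left_cancel₀ (pow_ne_zero _ hℓ0) h1
  have h3 : (u : OO) ^ L * s ∈ 𝔪 := by
    rw [h2, pow_succ]
    exact 𝔪.mul_mem_right _ (𝔪.mul_mem_left _ hl)
  rcases hp.mem_or_mem h3 with h4 | h4
  · have h5 := hp.mem_of_pow_mem _ h4
    have h6 : IsCoprime (ℓ : ℤ) u := (Nat.prime_iff_prime_int.1 hℓ).coprime_iff_not_dvd.2 hℓu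
    obtain ⟨x, y, hxy⟩ := h6
    apply hp.ne_top
    rw [Ideal.eq_top_iff_one]
    have h7 : (1 : OO) = (x : OO) * (ℓ : OO) + (y : OO) * (u : OO) := by
      have := congrArg (fun z : ℤ => (z : OO)) hxy
      push_cast at this
      exact this.symm
    rw [h7]
    exact 𝔪.add_mem (𝔪.mul_mem_left _ hl) (𝔪.mul_mem_left _ h5)
  · exact hs h4

theorem count {ℓ : ℕ} (hℓ : ℓ.Prime) (𝔪 : Ideal OO) (hp : 𝔪.IsPrime) (hl : (ℓ : OO) ∈ 𝔪) (n : ℕ)
    (ζ : ℂ) (hζ : IsPrimitiveRoot ζ (ℓ ^ n)) (P : OO[X]) (J : Finset ℕ)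
    (hJ : J ⊆ Finset.Ico 1 (ℓ ^ n))
    (hz : ∀ j ∈ J, eval₂ OO.val.toRingHom (ζ ^ j) P = 0) (C : ℤ)
    (hC : C ≠ 0) (γ s : OO) (hs : s ∉ 𝔪) (h1 : P.eval 1 * γ = C * s) :
    ∑ j ∈ J, (1 : ℚ) / Nat.totient (orderOf (ζ ^ j)) ≤ padicValInt ℓ C := by
  classical
  have : Fact ℓ.Prime := ⟨hℓ⟩
  have hpos : 0 < ℓ ^ n := pow_pos hℓ.pos _
  have hζint : IsIntegral ℤ ζ := hζ.isIntegral hpos
  set z : OO := ⟨ζ, hζint⟩ with hzd
  have hzp : IsPrimitiveRoot z (ℓ ^ n) := by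
    refine IsPrimitiveRoot.of_map_of_injective (f := OO.val) ?_ Subtype.val_injective
    exact hζ
  have hC0 : (C : OO) ≠ 0 := by
    intro h2
    have h3 : ((C : OO) : ℂ) = 0 := by rw [h2]; rfl
    have h4 : (C : ℂ) = 0 := h3
    exact hC (by exact_mod_cast h4)
  have hs0 : s ≠ 0 := by
    rintro rfl
    exact hs 𝔪.zero_mem
  have hP10 : P.eval 1 ≠ 0 := by
    intro h
    rw [h, zero_mul] at h1
    exact mul_ne_zero hC0 hs0 h1.symm
  have hP0 : P ≠ 0 := by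
    rintro h
    rw [h] at hP10
    simp at hP10
  have hinj : Set.InjOn (fun j => z ^ j) (J : Set ℕ) := by
    intro i hi j hj hij
    have hi' := (Finset.mem_Ico.1 (hJ hi)).2
    have hj' := (Finset.mem_Ico.1 (hJ hj)).2
    exact hzp.pow_inj hi' hj' hij
  have hdvd : ∏ j ∈ J, (X - Polynomial.C (z ^ j)) ∣ P := by
    have h2 : (Multiset.map (fun r => X - Polynomial.C r) (J.image (fun j => z ^ j)).val).prod ∣ P := by
      rw [Multiset.prod_X_sub_C_dvd_iff_le_roots hP0]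
      refine (Multiset.le_iff_subset (J.image (fun j => z ^ j)).nodup).2 ?_
      intro r hr
      have hr' : r ∈ J.image (fun j => z ^ j) := hr
      obtain ⟨j, hj, rfl⟩ := Finset.mem_image.1 hr'
      rw [mem_roots hP0, IsRoot.def]
      apply Subtype.val_injective
      have h3 := hz j hj
      have h4 : ζ ^ j = OO.val.toRingHom (z ^ j) := rfl
      rw [h4, eval₂_hom] at h3
      exact h3
    have h3 : (Multiset.map (fun r => X - Polynomial.C r) (J.image (fun j => z ^ j)).val).prod =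
        ∏ r ∈ J.image (fun j => z ^ j), (X - Polynomial.C r) := rfl
    rw [h3, Finset.prod_image hinj] at h2
    exact h2
  obtain ⟨Q, hQ⟩ := hdvd
  have h2 : ∏ j ∈ J, (1 - z ^ j) ∣ P.eval 1 := by
    refine ⟨Q.eval 1, ?_⟩
    rw [hQ, eval_mul, eval_prod]
    congr 1
    refine Finset.prod_congr rfl fun j _ => ?_
    simp
  -- the orders
  have hord : ∀ j ∈ J, ∃ i : ℕ, i + 1 ≤ n ∧ orderOf (ζ ^ j) = ℓ ^ (i + 1) ∧
      IsPrimitiveRoot (z ^ j) (ℓ ^ (i + 1)) := by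
    intro j hj
    have hj1 := Finset.mem_Ico.1 (hJ hj)
    have h3 : orderOf (ζ ^ j) ∣ ℓ ^ n := by
      rw [orderOf_dvd_iff_pow_eq_one, ← pow_mul, mul_comm, pow_mul, hζ.pow_eq_one, one_pow]
    obtain ⟨i, hi, h4⟩ := (Nat.dvd_prime_pow hℓ).1 h3
    rcases i with _ | i
    · exfalso
      rw [pow_zero, orderOf_eq_one_iff] at h4
      have h5 := (hζ.pow_eq_one_iff_dvd j).1 h4
      have h6 := Nat.le_of_dvd (by omega) h5
      omega
    · refine ⟨i, hi, h4, ?_⟩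
      refine IsPrimitiveRoot.of_map_of_injective (f := OO.val) ?_ Subtype.val_injective
      show IsPrimitiveRoot (ζ ^ j) (ℓ ^ (i + 1))
      rw [← h4]
      exact IsPrimitiveRoot.orderOf _
  choose! e he1 he2 he3 using hord
  set L : ℕ := Nat.totient (ℓ ^ n) with hL
  have hLpos : 0 < L := Nat.totient_pos.2 hpos
  have hLe : ∀ j ∈ J, Nat.totient (ℓ ^ (e j + 1)) ∣ L := fun j hj =>
    Nat.totient_dvd_of_dvd (pow_dvd_pow ℓ (he1 j hj))
  set A : ℕ := ∑ j ∈ J, L / Nat.totient (ℓ ^ (e j + 1)) with hA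
  have h5 : (ℓ : OO) ^ A ∣ (∏ j ∈ J, (1 - z ^ j)) ^ L := by
    rw [hA, ← Finset.prod_pow_eq_pow_sum, ← Finset.prod_pow]
    refine Finset.prod_dvd_prod_of_dvd _ _ fun j hj => ?_
    have h6 := pow_dvd_pow_of_dvd (prime_dvd hℓ _ (he3 j hj)) (L / Nat.totient (ℓ ^ (e j + 1)))
    rw [← pow_mul, Nat.mul_div_cancel' (hLe j hj)] at h6
    exact h6
  have h6 : (ℓ : OO) ^ A ∣ (C : OO) ^ L * s ^ L := by
    have h8 : (P.eval 1) ^ L ∣ (C * s : OO) ^ L := pow_dvd_pow_of_dvd ⟨γ, h1.symm⟩ L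
    rw [mul_pow] at h8
    exact h5.trans ((pow_dvd_pow_of_dvd h2 L).trans h8)
  have h8 : A ≤ L * padicValInt ℓ C :=
    pow_le_of_dvd hℓ 𝔪 hp hl hC (fun h => hs (hp.mem_of_pow_mem _ h)) h6
  have h9 : ∑ j ∈ J, (1 : ℚ) / Nat.totient (orderOf (ζ ^ j)) = (A : ℚ) / L := by
    rw [hA]
    push_cast
    rw [Finset.sum_div]
    refine Finset.sum_congr rfl fun j hj => ?_
    rw [he2 j hj, Nat.cast_div (hLe j hj) (by
      have : 0 < Nat.totient (ℓ ^ (e j + 1)) := Nat.totient_pos.2 (pow_pos hℓ.pos _)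
      exact_mod_cast this.ne')]
    have hL0 : (L : ℚ) ≠ 0 := by exact_mod_cast hLpos.ne'
    field_simp
  rw [h9, div_le_iff₀ (by exact_mod_cast hLpos)]
  have h10 : (A : ℚ) ≤ ((L * padicValInt ℓ C : ℕ) : ℚ) := by exact_mod_cast h8
  push_cast at h10
  linarith

/-- from the weighted number of the zeros to the number of the layers -/
theorem layers {ℓ : ℕ} (hℓ : ℓ.Prime) (n : ℕ) (ζ : ℂ) (hζ : IsPrimitiveRoot ζ (ℓ ^ n))
    (K : IntermediateField ℚ ℂ) [FiniteDimensional ℚ K] (P : K[X]) (v : ℕ)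
    (hv : ∀ J : Finset ℕ, J ⊆ Finset.Ico 1 (ℓ ^ n) → (∀ j ∈ J, aeval (ζ ^ j) P = 0) →
      ∑ j ∈ J, (1 : ℚ) / Nat.totient (orderOf (ζ ^ j)) ≤ v) (I : Finset ℕ)
    (hI : ∀ i ∈ I, ∃ j ∈ Finset.Ico 1 (ℓ ^ n), orderOf (ζ ^ j) = ℓ ^ i ∧ aeval (ζ ^ j) P = 0) :
    I.card ≤ Module.finrank ℚ K * v := by
  classical
  have hpos : 0 < ℓ ^ n := pow_pos hℓ.pos _
  set J : Finset ℕ := (Finset.Ico 1 (ℓ ^ n)).filter (fun j => aeval (ζ ^ j) P = 0)
    with hJ
  have h2 := hv J (Finset.filter_subset _ _) (fun j hj => (Finset.mem_filter.1 hj).2)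
  set A : ℕ := Module.finrank ℚ K with hA
  have hA0 : 0 < A := Module.finrank_pos
  -- the contribution of one layer
  have h3 : ∀ i ∈ I, (1 : ℚ) / A ≤ ∑ j ∈ J.filter (fun j => orderOf (ζ ^ j) = ℓ ^ i),
      (1 : ℚ) / Nat.totient (orderOf (ζ ^ j)) := by
    intro i hi
    obtain ⟨j, hj, hord, hz⟩ := hI i hi
    have hi0 : 0 < ℓ ^ i := pow_pos hℓ.pos _
    have hprim : IsPrimitiveRoot (ζ ^ j) (ℓ ^ i) := by
      rw [← hord]
      exact IsPrimitiveRoot.orderOf _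
    have h4 := conj_count K P hi0 (ζ ^ j) hprim hz
    set S := (Finset.range (ℓ ^ i)).filter (fun t => Nat.Coprime t (ℓ ^ i) ∧
      aeval ((ζ ^ j) ^ t) P = 0) with hS
    have h5 : S.card ≤ (J.filter (fun j => orderOf (ζ ^ j) = ℓ ^ i)).card := by
      have hred : ∀ t : ℕ, ζ ^ (j * t % ℓ ^ n) = (ζ ^ j) ^ t := by
        intro t
        rw [← pow_mul]
        conv_rhs => rw [← Nat.mod_add_div (j * t) (ℓ ^ n), pow_add, pow_mul, hζ.pow_eq_one, one_pow,
          mul_one]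
      refine Finset.card_le_card_of_injOn (fun t => j * t % ℓ ^ n) ?_ ?_
      · intro t ht
        have ht' := Finset.mem_filter.1 (Finset.mem_coe.1 ht)
        have h6 : orderOf (ζ ^ (j * t % ℓ ^ n)) = ℓ ^ i := by
          rw [hred]
          exact (hprim.pow_of_coprime t ht'.2.1).eq_orderOf.symm
        rw [Finset.mem_coe, Finset.mem_filter, hJ, Finset.mem_filter, Finset.mem_Ico]
        refine ⟨⟨⟨?_, Nat.mod_lt _ hpos⟩, ?_⟩, h6⟩
        · by_contra h7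
          have h8 : j * t % ℓ ^ n = 0 := Nat.lt_one_iff.1 (not_le.1 h7)
          rw [h8, pow_zero, orderOf_one] at h6
          rcases i with _ | i
          · -- the order of `ζ ^ j` is not one
            rw [pow_zero, orderOf_eq_one_iff] at hord
            have h9 := (hζ.pow_eq_one_iff_dvd j).1 hord
            have h10 := Nat.le_of_dvd (by have := (Finset.mem_Ico.1 hj).1; omega) h9
            have := (Finset.mem_Ico.1 hj).2
            omega
          · exact absurd h6 (Nat.one_lt_pow (Nat.succ_ne_zero i) hℓ.one_lt).ne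
        · have h7 := ht'.2.2
          rw [← hred] at h7
          exact h7
      · intro t ht t' ht' h
        have ht1 := (Finset.mem_filter.1 (Finset.mem_coe.1 ht)).1
        have ht2 := (Finset.mem_filter.1 (Finset.mem_coe.1 ht')).1
        rw [Finset.mem_range] at ht1 ht2
        have h6 : (ζ ^ j) ^ t = (ζ ^ j) ^ t' := by
          rw [← hred, ← hred]
          exact congrArg (fun n => ζ ^ n) h
        exact hprim.pow_inj ht1 ht2 h6
    have h6 : ∑ j ∈ J.filter (fun j => orderOf (ζ ^ j) = ℓ ^ i),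
        (1 : ℚ) / Nat.totient (orderOf (ζ ^ j)) =
        ((J.filter (fun j => orderOf (ζ ^ j) = ℓ ^ i)).card : ℚ) / Nat.totient (ℓ ^ i) := by
      rw [Finset.sum_congr rfl (fun j hj => by rw [(Finset.mem_filter.1 hj).2]), Finset.sum_const,
        nsmul_eq_mul]
      ring
    rw [h6, div_le_div_iff₀ (by exact_mod_cast hA0)
      (by exact_mod_cast Nat.totient_pos.2 hi0), one_mul]
    have h7 : Nat.totient (ℓ ^ i) ≤ A * (J.filter (fun j => orderOf (ζ ^ j) = ℓ ^ i)).card :=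
      h4.trans (Nat.mul_le_mul_left _ h5)
    have h8 : ((Nat.totient (ℓ ^ i) : ℕ) : ℚ) ≤
        ((A * (J.filter (fun j => orderOf (ζ ^ j) = ℓ ^ i)).card : ℕ) : ℚ) := by exact_mod_cast h7
    push_cast at h8
    linarith
  have h4 : ∑ i ∈ I, ∑ j ∈ J.filter (fun j => orderOf (ζ ^ j) = ℓ ^ i),
      (1 : ℚ) / Nat.totient (orderOf (ζ ^ j)) ≤ ∑ j ∈ J, (1 : ℚ) / Nat.totient (orderOf (ζ ^ j)) := by
    rw [← Finset.sum_biUnion]
    · refine Finset.sum_le_sum_of_subset_of_nonneg ?_ (fun _ _ _ => by positivity)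
      intro j hj
      obtain ⟨i, -, h5⟩ := Finset.mem_biUnion.1 hj
      exact (Finset.mem_filter.1 h5).1
    · intro i _ i' _ hii
      rw [Function.onFun, Finset.disjoint_left]
      intro j hj hj'
      have h5 := (Finset.mem_filter.1 hj).2
      rw [(Finset.mem_filter.1 hj').2] at h5
      exact hii (Nat.pow_right_injective hℓ.two_le h5).symm
  have h5 := Finset.sum_le_sum h3
  rw [Finset.sum_const, nsmul_eq_mul] at h5
  have h6 : (I.card : ℚ) * (1 / A) ≤ v := h5.trans (h4.trans h2)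
  rw [mul_one_div, div_le_iff₀ (by exact_mod_cast hA0)] at h6
  have h7 : (I.card : ℚ) ≤ ((A * v : ℕ) : ℚ) := by
    push_cast
    linarith
  exact_mod_cast h7

end Pool.Agent.Y194.UL
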