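import Pool.Agent.Y194.UL.One
import Pool.Agent.Y194.UL.Val
import Pool.Agent.Y194.UQ.Grp

/-!
# Cyclic groups of characters of prime power order: the number of the layers with a vanishing sum
-/

set_option autoImplicit false

namespace Pool.Agent.Y194.UL

open Finset Polynomial
open Pool.Agent.Y683.CG (Ksy lev lev_many)
open Pool.Agent.Y194.UQ (Fm EF alg_of_pow one_formK)
open Pool.Agent.Y194.BL (OO)

/-- the value at `u` of the inverse of a family -/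
noncomputable def iv (S : Finset ℕ) (ψ : Fm) (u : ℕ) : ℂ := ∏ q ∈ S, (ψ q (u : ZMod q))⁻¹

lemma iv_pow (S : Finset ℕ) (ψ : Fm) (u : ℕ) (hu : ∀ q ∈ S, Nat.Coprime u q) (j : ℕ) :
    iv S (ψ ^ j) u = (iv S ψ u) ^ j := by
  unfold iv
  rw [← prod_pow]
  refine prod_congr rfl fun q hq => ?_
  obtain ⟨v, hv⟩ := (ZMod.isUnit_iff_coprime u q).2 (hu q hq)
  have h1 : (ψ ^ j) q = (ψ q) ^ j := rfl
  rw [h1, ← hv, MulChar.pow_apply_coe, inv_pow]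

lemma iv_one (S : Finset ℕ) (u : ℕ) (hu : ∀ q ∈ S, Nat.Coprime u q) : iv S (1 : Fm) u = 1 := by
  unfold iv
  refine prod_eq_one fun q hq => ?_
  have h1 : (1 : Fm) q = 1 := rfl
  rw [h1, MulChar.one_apply ((ZMod.isUnit_iff_coprime u q).2 (hu q hq)), inv_one]

theorem cyc {r : ℕ} {m : Fin r → ℕ} {κ : Fin r → ℕ → ℤ → ℂ} {cc e : Fin r → ℕ → ℂ}
    (hκ : ∀ i, Ksy (m i) (κ i) (cc i) (e i)) (L : Fin r → Submodule ℤ ℂ)
    (hL : ∀ i, (L i).FG) (hmem : ∀ i, ∀ q : ℕ, 0 < q → ∀ a : ℤ, κ i q a ∈ L i)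
    {c : Fin r → ℕ} (hc : ∀ i, 1 ≤ c i) (χ₀ : ∀ i, DirichletCharacter ℂ (c i))
    (hbase : ∀ i, lev (κ i) (c i) (fun u => (χ₀ i (u : ZMod (c i)))⁻¹) ≠ 0) :
    ∃ (D : ℤ) (A : ℕ), D ≠ 0 ∧ ∀ l : ℕ, l.Prime → ∀ 𝔪 : Ideal OO, 𝔪.IsPrime →
      (l : OO) ∈ 𝔪 → ∀ (ψ : Fm) (n : ℕ), ψ ^ (l ^ n) = 1 → ∀ ζ : ℂ, IsPrimitiveRoot ζ (l ^ n) →
      ∀ S : Finset ℕ, (∀ q ∈ S, q.Prime ∧ ∀ i, Nat.Coprime q (c i)) → ∀ b : Fin r → ℤ,
      (∀ i, b i ≠ 0 ∧ ∃ x y : OO, x ∉ 𝔪 ∧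
        (y : ℂ) * ∏ q ∈ S, EF (m i) (cc i) (e i) (χ₀ i) q = b i * (x : ℂ)) →
      ∀ Z : ℕ → Prop, (∀ j, Z j → ∃ i, lev (κ i) (c i * ∏ q ∈ S, q)
        (fun u => (χ₀ i (u : ZMod (c i)))⁻¹ * iv S (ψ ^ j) u) = 0) →
      (∀ J : Finset ℕ, J ⊆ Ico 1 (l ^ n) → (∀ j ∈ J, Z j) →
        ∑ j ∈ J, (1 : ℚ) / Nat.totient (orderOf (ζ ^ j)) ≤ padicValInt l (D * ∏ i, b i)) ∧
      ∀ I : Finset ℕ, (∀ i ∈ I, ∃ j ∈ Ico 1 (l ^ n), orderOf (ζ ^ j) = l ^ i ∧ Z j) →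
        I.card ≤ A * padicValInt l (D * ∏ i, b i) := by
  classical
  choose D γ K Y hD hγ hK hY hYK h1 h2 using fun i =>
    one_formK (hκ i) (L i) (hL i) (hmem i) (hc i) (χ₀ i) (hbase i)
  set F : IntermediateField ℚ ℂ := ⨆ i, K i with hF
  have hFf : FiniteDimensional ℚ F := by
    rw [hF]
    exact IntermediateField.finiteDimensional_iSup_of_finite
  have hYF : ∀ i M u, Y i M u ∈ F := fun i M u => (le_iSup K i) (hYK i M u)
  refine ⟨∏ i, D i, Module.finrank ℚ F, prod_ne_zero_iff.2 fun i _ => hD i, ?_⟩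
  intro l hl 𝔪 h𝔪 hl𝔪 ψ n hψ ζ hζ S hS b hb Z hZ
  choose hb0 x y hx hxy using hb
  have hpos : 0 < l ^ n := pow_pos hl.pos n
  have hx0 : ∀ i, (x i : ℂ) ≠ 0 := by
    intro i h
    apply hx i
    have : x i = 0 := Subtype.ext h
    rw [this]
    exact 𝔪.zero_mem
  set P : ℕ := ∏ q ∈ S, q with hP
  have hP0 : 0 < P := prod_pos fun q hq => (hS q hq).1.pos
  have hcop : ∀ (i : Fin r) (u : ℕ), Nat.Coprime u (c i * P) → ∀ q ∈ S, Nat.Coprime u q := by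
    intro i u hu q hq
    exact Nat.Coprime.coprime_dvd_right ((dvd_prod_of_mem (fun q => q) hq).trans
      (dvd_mul_left P (c i))) hu
  -- the exponents
  have hk : ∀ u : ℕ, ∃ k : ℕ, (∀ q ∈ S, Nat.Coprime u q) → iv S ψ u = ζ ^ k := by
    intro u
    by_cases hu : ∀ q ∈ S, Nat.Coprime u q
    · have h3 : (iv S ψ u) ^ (l ^ n) = 1 := by
        rw [← iv_pow S ψ u hu, hψ, iv_one S u hu]
      have : NeZero (l ^ n) := ⟨hpos.ne'⟩
      obtain ⟨k, -, hk⟩ := hζ.eq_pow_of_pow_eq_one h3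
      exact ⟨k, fun _ => hk.symm⟩
    · exact ⟨0, fun h => absurd h hu⟩
  choose k hk using hk
  set T : Fin r → Finset ℕ := fun i => (range (c i * P)).filter (fun u => Nat.Coprime u (c i * P))
    with hT
  -- the polynomials
  set Q : OO[X] := ∏ i, ∑ u ∈ T i, Polynomial.C (⟨Y i (c i * P) u, hY i _ u⟩ : OO) * X ^ k u
    with hQ
  set R : F[X] := ∏ i, ∑ u ∈ T i, Polynomial.C (⟨Y i (c i * P) u, hYF i _ u⟩ : F) * X ^ k u
    with hR
  have hQe : ∀ w : ℂ, eval₂ OO.val.toRingHom w Q = ∏ i, ∑ u ∈ T i, Y i (c i * P) u * w ^ k u := by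
    intro w
    rw [hQ, eval₂_finsetProd]
    refine prod_congr rfl fun i _ => ?_
    rw [eval₂_finsetSum]
    refine sum_congr rfl fun u _ => ?_
    rw [eval₂_mul, eval₂_C, eval₂_pow, eval₂_X]
    rfl
  have hRe : ∀ w : ℂ, aeval w R = ∏ i, ∑ u ∈ T i, Y i (c i * P) u * w ^ k u := by
    intro w
    rw [hR, map_prod]
    refine prod_congr rfl fun i _ => ?_
    rw [map_sum]
    refine sum_congr rfl fun u _ => ?_
    rw [map_mul, aeval_C, map_pow, aeval_X]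
    rfl
  have hZ0 : ∀ j, Z j → ∏ i, ∑ u ∈ T i, Y i (c i * P) u * (ζ ^ j) ^ k u = 0 := by
    intro j hj
    obtain ⟨i, hi⟩ := hZ j hj
    refine prod_eq_zero (mem_univ i) ?_
    have h5 := h1 i (c i * P) (fun u => iv S (ψ ^ j) u) (Nat.mul_pos (hc i) hP0) (fun u hu => by
        have h6 := hcop i u hu
        refine alg_of_pow (n := l ^ n) hpos ?_
        rw [← iv_pow S _ u h6, ← pow_mul, mul_comm, pow_mul, hψ, one_pow, iv_one S u h6]) hi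
    refine Eq.trans ?_ h5
    refine sum_congr rfl fun u hu => ?_
    have h6 := hcop i u (mem_filter.1 hu).2
    rw [iv_pow S ψ u h6, hk u h6, ← pow_mul, ← pow_mul, mul_comm j]
  have hmain : Q.eval 1 * ∏ i, (⟨γ i, hγ i⟩ * y i) =
      (((∏ i, D i) * ∏ i, b i : ℤ) : OO) * ∏ i, x i := by
    apply Subtype.val_injective
    have h3 : ((Q.eval 1 : OO) : ℂ) = ∏ i, ∑ u ∈ T i, Y i (c i * P) u := by
      have h4 : ((Q.eval 1 : OO) : ℂ) = eval₂ OO.val.toRingHom (1 : ℂ) Q := by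
        have h5 := eval₂_hom (p := Q) OO.val.toRingHom (1 : OO)
        rw [map_one] at h5
        exact h5.symm
      rw [h4, hQe]
      simp only [one_pow, mul_one]
    push_cast
    rw [h3, ← prod_mul_distrib, ← prod_mul_distrib, ← prod_mul_distrib]
    refine prod_congr rfl fun i _ => ?_
    have h4 := h2 i S (fun q hq => ⟨(hS q hq).1, (hS q hq).2 i⟩) (b i) (x i) (y i) (hb0 i) (hx0 i)
      (x i).2 (y i).2 (hxy i)
    push_cast at h4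
    exact h4
  have hDb : (∏ i, D i) * ∏ i, b i ≠ 0 := mul_ne_zero (prod_ne_zero_iff.2 fun i _ => hD i)
    (prod_ne_zero_iff.2 fun i _ => hb0 i)
  have hxp : ∏ i, x i ∉ 𝔪 := by
    intro hmem'
    obtain ⟨i, -, hi⟩ := h𝔪.prod_mem_iff.1 hmem'
    exact hx i hi
  constructor
  · intro J hJ hJZ
    refine count hl 𝔪 h𝔪 hl𝔪 n ζ hζ Q J hJ (fun j hj => ?_) _ hDb _ _ hxp hmain
    rw [hQe]
    exact hZ0 j (hJZ j hj)
  · intro I hI
    refine layers hl n ζ hζ F R _ (fun J hJ hJZ => ?_) I (fun i hi => ?_)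
    · refine count hl 𝔪 h𝔪 hl𝔪 n ζ hζ Q J hJ (fun j hj => ?_) _ hDb _ _ hxp hmain
      rw [hQe, ← hRe]
      exact hJZ j hj
    · obtain ⟨j, hj, hord, hjZ⟩ := hI i hi
      refine ⟨j, hj, hord, ?_⟩
      rw [hRe]
      exact hZ0 j hjZ

end Pool.Agent.Y194.UL
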