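import Pool.Agent.Y194.UL.Cyc
import Pool.Agent.Y194.UQ.Main

/-!
# The layers of cyclic extensions of prime power degree with new zeros
-/

set_option autoImplicit false

namespace Pool.Agent.Y194.UL

open Complex Filter Topology Set ZMod
open UpperHalfPlane hiding I
open scoped MatrixGroups
open CongruenceSubgroup
open Pool.Agent.W192.CY
open Pool.Agent.Y683.CG
open Pool.Agent.Y194.UQ (lw_eq factor_unit root_int)
open Pool.Agent.Y194.BL (OO)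

/-- a vanishing central value makes the character sums vanish -/
theorem van_lev {m N : ℕ} [NeZero N] (hm : 1 ≤ m) {η : DirichletCharacter ℂ N}
    {f : CuspForm (Gamma1 N : Subgroup (GL (Fin 2) ℝ)) (2 * m : ℤ)} {w : ℂ}
    (hf : NNewf m N η f w) {c : ℕ} (hc : 1 ≤ c) (χ₀ : DirichletCharacter ℂ c)
    (h0 : χ₀.IsPrimitive) (hcN : Nat.Coprime c N) (S : Finset ℕ)
    (hS : ∀ q ∈ S, q.Prime ∧ ¬ q ∣ N ∧ ¬ q ∣ c) (ψ : Fam) (hψ : ∀ q, ψ q ≠ 1 → q ∈ S)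
    (hi : ¬ NVC η f (vals χ₀ ψ)) : lev (kp m f) (c * ∏ q ∈ S, q)
      (fun u => (χ₀ (u : ZMod c))⁻¹ * iv S ψ u) = 0 := by
  classical
  have hcne : NeZero c := ⟨by omega⟩
  have hcop : ∀ q ∈ S, q.Prime ∧ Nat.Coprime q c := fun q hq =>
    ⟨(hS q hq).1, (Nat.Prime.coprime_iff_not_dvd (hS q hq).1).2 (hS q hq).2.2⟩
  set T : Finset ℕ := S.filter (fun q => ψ q ≠ 1) with hT
  have hTS : T ⊆ S := Finset.filter_subset _ _
  have hTm : ∀ q, q ∈ T ↔ ψ q ≠ 1 := by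
    intro q
    rw [hT, Finset.mem_filter]
    exact ⟨fun h => h.2, fun h => ⟨hψ q h, h⟩⟩
  obtain ⟨E, hE, hEv⟩ := fam_prim χ₀ h0 ψ T fun q hq =>
    ⟨(hcop q (hTS hq)).1, (hcop q (hTS hq)).2, (hTm q).1 hq⟩
  have hMne : NeZero (c * ∏ q ∈ T, q) := ⟨mul_ne_zero (NeZero.ne c)
    (Finset.prod_ne_zero_iff.2 fun q hq => (hcop q (hTS hq)).1.ne_zero)⟩
  have hMN : Nat.Coprime (c * ∏ q ∈ T, q) N := by
    refine Nat.Coprime.mul_left hcN (Nat.Coprime.prod_left fun q hq => ?_)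
    exact (Nat.Prime.coprime_iff_not_dvd (hcop q (hTS hq)).1).2 (hS q (hTS hq)).2.1
  have h4 : vals χ₀ ψ = fun n : ℕ => E (n : ZMod (c * ∏ q ∈ T, q)) := by
    funext n
    rw [vals_eq χ₀ ψ T hTm, hEv]
  rw [h4, nonvan_iff hm hf hMN E hE, not_not] at hi
  have h5 : lw (kp m f) χ₀ ψ T = 0 := by
    unfold lw
    simp only [← hEv]
    exact hi
  have h6 := lw_many (ksy hm hf) χ₀ h0 ψ hTS
    (fun q hq => (hTm q).1 hq) (fun q hq => by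
      by_contra h
      exact hq ((hTm q).2 h)) (fun q hq => hcop q hq)
  rw [h5, mul_zero, lw_eq] at h6
  exact h6

lemma ord_pow {l n : ℕ} (hl : l.Prime) {X : Type} [Group X] {ψ : X} (hψ : orderOf ψ = l ^ n) {ζ : ℂ}
    (hζ : IsPrimitiveRoot ζ (l ^ n)) (j : ℕ) (hj : j ≠ 0) : orderOf (ψ ^ j) = orderOf (ζ ^ j) := by
  rw [orderOf_pow' ψ hj, orderOf_pow' ζ hj, hψ, ← hζ.eq_orderOf]

open Classical in
theorem general {r : ℕ} {m N : Fin r → ℕ} [∀ i, NeZero (N i)] (hm : ∀ i, 1 ≤ m i)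
    {η : (i : Fin r) → DirichletCharacter ℂ (N i)}
    {f : (i : Fin r) → CuspForm (Gamma1 (N i) : Subgroup (GL (Fin 2) ℝ)) (2 * m i : ℤ)}
    {w : Fin r → ℂ} (hf : ∀ i, NNewf (m i) (N i) (η i) (f i) (w i))
    {c : Fin r → ℕ} (hc : ∀ i, 1 ≤ c i) (χ₀ : (i : Fin r) → DirichletCharacter ℂ (c i))
    (h0 : ∀ i, (χ₀ i).IsPrimitive) (hcN : ∀ i, Nat.Coprime (c i) (N i))
    (hbase : ∀ i, NVC (η i) (f i) (vals (χ₀ i) 1)) :
    ∃ D A : ℕ, 1 ≤ D ∧ ∀ l : ℕ, l.Prime → ∀ 𝔪 : Ideal (integralClosure ℤ ℂ), 𝔪.IsMaximal →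
      (l : integralClosure ℤ ℂ) ∈ 𝔪 → ∀ (ψ : Fam) (n : ℕ), orderOf ψ = l ^ n →
      ∀ S : Finset ℕ, (∀ q ∈ S, q.Prime ∧ ∀ i, ¬ q ∣ N i ∧ ¬ q ∣ c i) →
      (∀ q, ψ q ≠ 1 → q ∈ S) →
      ∀ b : Fin r → ℕ, (∀ i, 1 ≤ b i ∧ ∃ x y : integralClosure ℤ ℂ, x ∉ 𝔪 ∧
        (y : ℂ) * ∏ q ∈ S, (cf (f i) q - η i (q : ZMod (N i)) * (q : ℂ) ^ (m i - 1) *
          χ₀ i (q : ZMod (c i)) - (q : ℂ) ^ (m i - 1) * (χ₀ i (q : ZMod (c i)))⁻¹) =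
            b i * (x : ℂ)) →
      ∑ j ∈ (Finset.Ico 1 (l ^ n)).filter
        (fun j => ∃ i, ¬ NVC (η i) (f i) (vals (χ₀ i) (ψ ^ j))),
          (1 : ℚ) / Nat.totient (orderOf (ψ ^ j)) ≤ padicValNat l (D * ∏ i, b i) ∧
      ((Finset.Icc 1 n).filter (fun k => ∃ j : ℕ, orderOf (ψ ^ j) = l ^ k ∧
        ∃ i, ¬ NVC (η i) (f i) (vals (χ₀ i) (ψ ^ j)))).card ≤
          A * padicValNat l (D * ∏ i, b i) := by
  have hcne : ∀ i, NeZero (c i) := fun i => ⟨by have := hc i; omega⟩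
  obtain ⟨D, A, hD, hmain⟩ := cyc (m := m) (κ := fun i => kp (m i) (f i)) (cc := fun i => cf (f i))
    (e := fun i p => η i (p : ZMod (N i))) (fun i => ksy (hm i) (hf i))
    (fun i => LP (f i) (2 * m i - 2)) (fun i => LP_fg (f i) _)
    (fun i q hq a => (kp_lim (f i) (hm i) hq a).2) hc χ₀ (fun i => by
      have h1 : vals (χ₀ i) 1 = fun n : ℕ => χ₀ i (n : ZMod (c i)) := by
        funext n
        rw [vals_eq (χ₀ i) 1 ∅ (fun q => ⟨fun h => absurd h (Finset.notMem_empty q),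
          fun h => absurd rfl h⟩), Finset.prod_empty, mul_one]
      have h2 := hbase i
      rw [h1] at h2
      exact (nonvan_iff (hm i) (hf i) (hcN i) (χ₀ i) (h0 i)).1 h2)
  refine ⟨D.natAbs, A, Int.natAbs_pos.2 hD, ?_⟩
  intro l hl 𝔪 hmax hlm ψ n hord S hS hψS b hb
  have hpos : 0 < l ^ n := pow_pos hl.pos n
  have hψ1 : ψ ^ (l ^ n) = 1 := by rw [← hord]; exact pow_orderOf_eq_one ψ
  have hcop : ∀ q ∈ S, q.Prime ∧ ∀ i, Nat.Coprime q (c i) := fun q hq =>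
    ⟨(hS q hq).1, fun i => (Nat.Prime.coprime_iff_not_dvd (hS q hq).1).2 ((hS q hq).2 i).2⟩
  set ζ : ℂ := Complex.exp (2 * Real.pi * Complex.I / (l ^ n : ℕ)) with hζd
  have hζ : IsPrimitiveRoot ζ (l ^ n) := Complex.isPrimitiveRoot_exp (l ^ n) hpos.ne'
  have h1 := hmain l hl 𝔪 hmax.isPrime hlm ψ n hψ1 ζ hζ S hcop (fun i => (b i : ℤ)) (fun i => by
    obtain ⟨h2, x, y, hx, hxy⟩ := hb i
    refine ⟨by positivity, x, y, hx, ?_⟩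
    push_cast
    exact hxy) (fun j => ∃ i, ¬ NVC (η i) (f i) (vals (χ₀ i) (ψ ^ j))) (by
    rintro j ⟨i, hi⟩
    refine ⟨i, van_lev (hm i) (hf i) (hc i) (χ₀ i) (h0 i) (hcN i) S
      (fun q hq => ⟨(hS q hq).1, ((hS q hq).2 i).1, ((hS q hq).2 i).2⟩) (ψ ^ j) (fun q hq => ?_) hi⟩
    refine hψS q fun h => hq ?_
    have h3 : (ψ ^ j) q = (ψ q) ^ j := rfl
    rw [h3, h, one_pow])
  have h2 : padicValInt l (D * ∏ i, ((b i : ℕ) : ℤ)) = padicValNat l (D.natAbs * ∏ i, b i) := by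
    unfold padicValInt
    congr 1
    rw [Int.natAbs_mul]
    congr 1
    rw [← Nat.cast_prod, Int.natAbs_natCast]
  rw [h2] at h1
  obtain ⟨h3, h4⟩ := h1
  constructor
  · refine le_trans (le_of_eq ?_) (h3 _ (Finset.filter_subset _ _)
      (fun j hj => (Finset.mem_filter.1 hj).2))
    refine Finset.sum_congr rfl fun j hj => ?_
    have hj0 := (Finset.mem_Ico.1 (Finset.mem_filter.1 hj).1).1
    rw [ord_pow hl hord hζ j (by omega)]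
  · refine h4 _ fun k hk => ?_
    obtain ⟨hk1, j, hj, hjZ⟩ := Finset.mem_filter.1 hk
    have hred : ψ ^ (j % l ^ n) = ψ ^ j := by
      rw [← hord]
      exact pow_mod_orderOf ψ j
    have hj0 : j % l ^ n ≠ 0 := by
      intro h
      rw [h, pow_zero] at hred
      rw [← hred, orderOf_one] at hj
      have := (Finset.mem_Icc.1 hk1).1
      exact absurd hj.symm (Nat.one_lt_pow (by omega) hl.one_lt).ne'
    refine ⟨j % l ^ n, Finset.mem_Ico.2 ⟨Nat.one_le_iff_ne_zero.2 hj0, Nat.mod_lt _ hpos⟩, ?_, ?_⟩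
    · rw [← ord_pow hl hord hζ _ hj0, hred]
      exact hj
    · obtain ⟨i, hi⟩ := hjZ
      exact ⟨i, by rw [hred]; exact hi⟩

/-- the exceptional powers of `ψ`: their weighted number and the number of the layers -/
def Bd {r : ℕ} {m N : Fin r → ℕ} (η : (i : Fin r) → DirichletCharacter ℂ (N i))
    (f : (i : Fin r) → CuspForm (Gamma1 (N i) : Subgroup (GL (Fin 2) ℝ)) (2 * m i : ℤ))
    {c : Fin r → ℕ} (χ₀ : (i : Fin r) → DirichletCharacter ℂ (c i)) (l n : ℕ) (ψ : Fam)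
    (A v : ℕ) : Prop :=
  open Classical in
  ∑ j ∈ (Finset.Ico 1 (l ^ n)).filter
    (fun j => ∃ i, ¬ NVC (η i) (f i) (vals (χ₀ i) (ψ ^ j))),
      (1 : ℚ) / Nat.totient (orderOf (ψ ^ j)) ≤ v ∧
  ((Finset.Icc 1 n).filter (fun k => ∃ j : ℕ, orderOf (ψ ^ j) = l ^ k ∧
    ∃ i, ¬ NVC (η i) (f i) (vals (χ₀ i) (ψ ^ j)))).card ≤ A * v

theorem both {r : ℕ} {m N : Fin r → ℕ} [∀ i, NeZero (N i)] (hm : ∀ i, 1 ≤ m i)
    {η : (i : Fin r) → DirichletCharacter ℂ (N i)}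
    {f : (i : Fin r) → CuspForm (Gamma1 (N i) : Subgroup (GL (Fin 2) ℝ)) (2 * m i : ℤ)}
    {w : Fin r → ℂ} (hf : ∀ i, NNewf (m i) (N i) (η i) (f i) (w i))
    {c : Fin r → ℕ} (hc : ∀ i, 1 ≤ c i) (χ₀ : (i : Fin r) → DirichletCharacter ℂ (c i))
    (h0 : ∀ i, (χ₀ i).IsPrimitive) (hcN : ∀ i, Nat.Coprime (c i) (N i))
    (hbase : ∀ i, NVC (η i) (f i) (vals (χ₀ i) 1)) :
    ∃ D A : ℕ, 1 ≤ D ∧ ∀ l : ℕ, l.Prime → ∀ 𝔪 : Ideal (integralClosure ℤ ℂ), 𝔪.IsMaximal →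
      (l : integralClosure ℤ ℂ) ∈ 𝔪 → ∀ (ψ : Fam) (n : ℕ), orderOf ψ = l ^ n →
      (({q | ψ q ≠ 1}.Finite ∧
          ∀ q, ψ q ≠ 1 → q.Prime ∧ ∀ i, ¬ q ∣ N i ∧ ¬ q ∣ c i ∧
            ∃ x : integralClosure ℤ ℂ, x ∉ 𝔪 ∧ (x : ℂ) = cf (f i) q - η i (q : ZMod (N i)) *
              χ₀ i (q : ZMod (c i)) - (χ₀ i (q : ZMod (c i)))⁻¹) →
        Bd η f χ₀ l n ψ A (padicValNat l D)) ∧
      (∀ S : Finset ℕ, (∀ q ∈ S, q.Prime ∧ ∀ i, ¬ q ∣ N i ∧ ¬ q ∣ c i) →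
        (∀ q, ψ q ≠ 1 → q ∈ S) →
        ∀ b : Fin r → ℕ, (∀ i, 1 ≤ b i ∧ ∃ x y : integralClosure ℤ ℂ, x ∉ 𝔪 ∧
          (y : ℂ) * ∏ q ∈ S, (cf (f i) q - η i (q : ZMod (N i)) * (q : ℂ) ^ (m i - 1) *
            χ₀ i (q : ZMod (c i)) - (q : ℂ) ^ (m i - 1) * (χ₀ i (q : ZMod (c i)))⁻¹) =
              b i * (x : ℂ)) →
        Bd η f χ₀ l n ψ A (padicValNat l (D * ∏ i, b i))) := by
  classical
  obtain ⟨D, A, hD, hgen⟩ := general hm hf hc χ₀ h0 hcN hbase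
  refine ⟨D, A, hD, fun l hl 𝔪 hmax hlm ψ n hord => ⟨fun hψ => ?_, fun S hS hψS b hb =>
    hgen l hl 𝔪 hmax hlm ψ n hord S hS hψS b hb⟩⟩
  have hψ1 : ψ ^ (l ^ n) = 1 := by rw [← hord]; exact pow_orderOf_eq_one ψ
  set S : Finset ℕ := hψ.1.toFinset with hS
  have hmem : ∀ q, q ∈ S ↔ ψ q ≠ 1 := by
    intro q
    rw [hS, Set.Finite.mem_toFinset]
    rfl
  have hSp : ∀ q ∈ S, q.Prime ∧ (l : ℤ) ∣ 1 - q ∧ ∀ i, ¬ q ∣ N i ∧ ¬ q ∣ c i ∧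
      ∃ x : integralClosure ℤ ℂ, x ∉ 𝔪 ∧ (x : ℂ) = cf (f i) q - η i (q : ZMod (N i)) *
        χ₀ i (q : ZMod (c i)) - (χ₀ i (q : ZMod (c i)))⁻¹ := by
    intro q hq
    have hχ := (hmem q).1 hq
    exact ⟨(hψ.2 q hχ).1, (dvd_of_ord hl (hψ.2 q hχ).1 (ψ q) hχ (congrFun hψ1 q)).1,
      (hψ.2 q hχ).2⟩
  have hfac : ∀ (i : Fin r) (q : ℕ), ∃ x : integralClosure ℤ ℂ, q ∈ S → x ∉ 𝔪 ∧ (x : ℂ) =
      cf (f i) q - η i (q : ZMod (N i)) * (q : ℂ) ^ (m i - 1) * χ₀ i (q : ZMod (c i)) -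
        (q : ℂ) ^ (m i - 1) * (χ₀ i (q : ZMod (c i)))⁻¹ := by
    intro i q
    by_cases hq : q ∈ S
    · obtain ⟨h1, h2, h3⟩ := hSp q hq
      obtain ⟨h4, h5, x, hx, hxe⟩ := h3 i
      obtain ⟨x', hx', hxe'⟩ := factor_unit h2 𝔪 hlm
        (Nat.totient_pos.2 (Nat.pos_of_ne_zero (NeZero.ne (N i)))) (Nat.totient_pos.2 (hc i))
        (dc_root (dvd_refl _) (η i) ((Nat.Prime.coprime_iff_not_dvd h1).2 h4))
        (dc_root (dvd_refl _) (χ₀ i) ((Nat.Prime.coprime_iff_not_dvd h1).2 h5)) x hx hxe (m i)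
      exact ⟨x', fun _ => ⟨hx', hxe'⟩⟩
    · exact ⟨0, fun h => absurd h hq⟩
  choose x hx using hfac
  have hprime : 𝔪.IsPrime := hmax.isPrime
  have h := hgen l hl 𝔪 hmax hlm ψ n hord S
    (fun q hq => ⟨(hSp q hq).1, fun i => ⟨((hSp q hq).2.2 i).1, ((hSp q hq).2.2 i).2.1⟩⟩)
    (fun q hq => (hmem q).2 hq) (fun _ => 1) (fun i => by
      refine ⟨le_refl _, ∏ q ∈ S, x i q, 1, ?_, ?_⟩
      · intro hmem'
        obtain ⟨q, hq, hq'⟩ := hprime.prod_mem_iff.1 hmem'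
        exact (hx i q hq).1 hq'
      · push_cast
        rw [one_mul, one_mul]
        exact Finset.prod_congr rfl fun q hq => (hx i q hq).2.symm)
  rw [Finset.prod_const_one, mul_one] at h
  exact h

theorem base {r : ℕ} {m N : Fin r → ℕ} [∀ i, NeZero (N i)] (hm : ∀ i, 1 ≤ m i)
    {η : (i : Fin r) → DirichletCharacter ℂ (N i)}
    {f : (i : Fin r) → CuspForm (Gamma1 (N i) : Subgroup (GL (Fin 2) ℝ)) (2 * m i : ℤ)}
    {w : Fin r → ℂ} (hf : ∀ i, NNewf (m i) (N i) (η i) (f i) (w i)) {l : ℕ} (hl : l.Prime)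
    (hlN : ∀ i, ¬ l ∣ N i) : ∃ (k a : ℕ) (χ₀ : DirichletCharacter ℂ (l ^ k)), χ₀.IsPrimitive ∧
      χ₀ ^ (l ^ a) = 1 ∧ ∃ A V : ℕ, ∀ 𝔪 : Ideal (integralClosure ℤ ℂ), 𝔪.IsMaximal →
      (l : integralClosure ℤ ℂ) ∈ 𝔪 → ∀ (ψ : Fam) (n : ℕ), orderOf ψ = l ^ n →
      ({q | ψ q ≠ 1}.Finite ∧
        ∀ q, ψ q ≠ 1 → q.Prime ∧ ∀ i, ¬ q ∣ N i ∧ ∃ x : integralClosure ℤ ℂ, x ∉ 𝔪 ∧
          (x : ℂ) = cf (f i) q - 1 - η i (q : ZMod (N i))) →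
      Bd η f (fun _ => χ₀) l n ψ A V := by
  obtain ⟨k, a, χ₀, hχ, ha, hnv⟩ := base_exists hm hf hl hlN
  have hne : NeZero (l ^ k) := ⟨(pow_pos hl.pos _).ne'⟩
  obtain ⟨D, A, -, hD⟩ := both hm hf (c := fun _ => l ^ k)
    (fun _ => Nat.one_le_iff_ne_zero.2 (pow_pos hl.pos _).ne') (fun _ => χ₀) (fun _ => hχ)
    (fun i => Nat.Coprime.pow_left _ ((Nat.Prime.coprime_iff_not_dvd hl).2 (hlN i))) hnv
  refine ⟨k, a, χ₀, hχ, ha, A, padicValNat l D, fun 𝔪 hmax hlm ψ n hord hψ =>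
    (hD l hl 𝔪 hmax hlm ψ n hord).1 ⟨hψ.1, fun q hq => ?_⟩⟩
  have hψ1 : ψ ^ (l ^ n) = 1 := by rw [← hord]; exact pow_orderOf_eq_one ψ
  obtain ⟨h4, h5⟩ := hψ.2 q hq
  refine ⟨h4, fun i => ?_⟩
  obtain ⟨h6, x, hx, hxe⟩ := h5 i
  have h7 := (dvd_of_ord hl h4 (ψ q) hq (congrFun hψ1 q)).2
  have h8 : Nat.Coprime q (l ^ k) :=
    Nat.Coprime.pow_right _ ((Nat.coprime_primes h4 hl).2 h7)
  refine ⟨h6, fun h9 => ?_, ?_⟩
  · exact h7 ((Nat.prime_dvd_prime_iff_eq h4 hl).1 (h4.dvd_of_dvd_pow h9))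
  · -- the values of `χ₀` are one modulo `𝔪`
    have hu : IsUnit (q : ZMod (l ^ k)) := (ZMod.isUnit_iff_coprime q _).2 h8
    set ζ : ℂ := χ₀ (q : ZMod (l ^ k)) with hζ
    have hζa : ζ ^ (l ^ a) = 1 := by
      have h9 : (χ₀ ^ (l ^ a)) (q : ZMod (l ^ k)) =
          (1 : DirichletCharacter ℂ (l ^ k)) (q : ZMod (l ^ k)) := by rw [ha]
      rw [MulChar.pow_apply' _ (pow_pos hl.pos a).ne', MulChar.one_apply hu] at h9
      exact h9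
    have hla : 0 < l ^ a := pow_pos hl.pos a
    have hζi : (ζ⁻¹) ^ (l ^ a) = 1 := by rw [inv_pow, hζa, inv_one]
    set z : integralClosure ℤ ℂ := ⟨ζ, root_int hla hζa⟩ with hz
    set z' : integralClosure ℤ ℂ := ⟨ζ⁻¹, root_int hla hζi⟩ with hz'
    have hη : η i (q : ZMod (N i)) ^ (Nat.totient (N i)) = 1 :=
      dc_root (dvd_refl _) (η i) ((Nat.Prime.coprime_iff_not_dvd h4).2 h6)
    set e : integralClosure ℤ ℂ := ⟨η i (q : ZMod (N i)), root_int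
      (Nat.totient_pos.2 (Nat.pos_of_ne_zero (NeZero.ne (N i)))) hη⟩ with he
    have m1 : 1 - z ∈ 𝔪 := one_sub_mem hl 𝔪 hmax hlm (a := a) (Subtype.ext hζa)
    have m2 : 1 - z' ∈ 𝔪 := one_sub_mem hl 𝔪 hmax hlm (a := a) (Subtype.ext hζi)
    refine ⟨x + (e * (1 - z) + (1 - z')), fun hmem => hx ?_, ?_⟩
    · exact (Ideal.add_mem_iff_left _ (Ideal.add_mem _ (Ideal.mul_mem_left _ e m1) m2)).1 hmem
    · push_cast
      rw [hxe, hz, hz', he]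
      ring

end Pool.Agent.Y194.UL
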