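import Pool.Agent.Y194.UQ.One

/-!
# The algebraic data of one form, with the field of definition
-/

set_option autoImplicit false

namespace Pool.Agent.Y194.UQ

open Finset
open Pool.Agent.Y683.CG (Ksy lev lev_many)
open Pool.Agent.Y194.BL (exists_functional exists_multiple exists_field)

theorem one_formK {m : ℕ} {κ : ℕ → ℤ → ℂ} {cc e : ℕ → ℂ} (hκ : Ksy m κ cc e) (L : Submodule ℤ ℂ)
    (hL : L.FG) (hmem : ∀ q : ℕ, 0 < q → ∀ a : ℤ, κ q a ∈ L) {c : ℕ} (hc : 1 ≤ c)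
    (χ₀ : DirichletCharacter ℂ c) (hbase : lev κ c (fun u => (χ₀ (u : ZMod c))⁻¹) ≠ 0) :
    ∃ (D : ℤ) (γ : ℂ) (K : IntermediateField ℚ ℂ) (Y : ℕ → ℕ → ℂ), D ≠ 0 ∧ IsIntegral ℤ γ ∧
      FiniteDimensional ℚ K ∧ (∀ M u, IsIntegral ℤ (Y M u)) ∧ (∀ M u, Y M u ∈ K) ∧
      (∀ (M : ℕ) (Ψ : ℕ → ℂ), 0 < M → (∀ u, Nat.Coprime u M → IsAlgebraic ℚ (Ψ u)) →
        lev κ M (fun u => (χ₀ (u : ZMod c))⁻¹ * Ψ u) = 0 →
        ∑ u ∈ (range M).filter (fun u => Nat.Coprime u M), Y M u * Ψ u = 0) ∧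
      ∀ S : Finset ℕ, (∀ q ∈ S, q.Prime ∧ Nat.Coprime q c) → ∀ (b : ℤ) (x y : ℂ),
        b ≠ 0 → x ≠ 0 → IsIntegral ℤ x → IsIntegral ℤ y → y * ∏ q ∈ S, EF m cc e χ₀ q = b * x →
        (∑ u ∈ (range (c * ∏ q ∈ S, q)).filter (fun u => Nat.Coprime u (c * ∏ q ∈ S, q)),
          Y (c * ∏ q ∈ S, q) u) * (γ * y) = ((D * b : ℤ) : ℂ) * x := by
  classical
  have hc0 : NeZero c := ⟨by omega⟩
  set n : ℕ := Fintype.card (ZMod c)ˣ with hn
  have hn0 : 0 < n := Fintype.card_pos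
  set A : Submodule ℤ ℂ := Submodule.span ℤ {ζ : ℂ | ζ ^ n = 1 ∨ ζ = 0} with hA
  have hfin : {ζ : ℂ | ζ ^ n = 1 ∨ ζ = 0}.Finite := by
    have h1 : {ζ : ℂ | ζ ^ n = 1 ∨ ζ = 0} ⊆
        ((insert 0 (Polynomial.nthRoots n (1 : ℂ)).toFinset : Finset ℂ) : Set ℂ) := by
      intro ζ hζ
      rw [mem_coe, mem_insert, Multiset.mem_toFinset, Polynomial.mem_nthRoots hn0]
      rcases hζ with h | h
      · exact Or.inr h
      · exact Or.inl h
    exact (finite_toSet _).subset h1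
  have hAfg : (A * L).FG := (Submodule.fg_span hfin).mul hL
  have hroot : ∀ u : ℕ, (χ₀ (u : ZMod c))⁻¹ ∈ {ζ : ℂ | ζ ^ n = 1 ∨ ζ = 0} := by
    intro u
    by_cases hu : IsUnit (u : ZMod c)
    · left
      obtain ⟨v, hv⟩ := hu
      rw [← hv, inv_pow, ← map_pow, ← Units.val_pow_eq_pow_val, hn, pow_card_eq_one, Units.val_one,
        map_one, inv_one]
    · right
      rw [MulChar.map_nonunit _ hu, inv_zero]
  have halg : ∀ u : ℕ, IsAlgebraic ℚ (χ₀ (u : ZMod c))⁻¹ := by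
    intro u
    rcases hroot u with h | h
    · exact alg_of_pow hn0 h
    · rw [h]
      exact isAlgebraic_zero
  set Γ : AddSubgroup ℂ := (A * L).toAddSubgroup with hΓ
  have hΓfin : Module.Finite ℤ Γ := by
    have h1 : Module.Finite ℤ (A * L : Submodule ℤ ℂ) := Module.Finite.iff_fg.2 hAfg
    exact h1
  have hxm : ∀ M : ℕ, 0 < M → ∀ u : ℕ, (χ₀ (u : ZMod c))⁻¹ * κ M u ∈ Γ := fun M hM u =>
    Submodule.mul_mem_mul (Submodule.subset_span (hroot u)) (hmem M hM _)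
  let xx : ℕ → ℕ → Γ := fun M u => if hM : 0 < M then ⟨_, hxm M hM u⟩ else 0
  have hxx : ∀ M : ℕ, 0 < M → ∀ u : ℕ, ((xx M u : Γ) : ℂ) = (χ₀ (u : ZMod c))⁻¹ * κ M u := by
    intro M hM u
    simp only [xx, dif_pos hM]
  set x0 : Γ := ∑ u ∈ (range c).filter (fun u => Nat.Coprime u c), xx c u with hx0
  have hx0v : ((x0 : Γ) : ℂ) = lev κ c (fun u => (χ₀ (u : ZMod c))⁻¹) := by
    rw [hx0, AddSubgroup.val_finsetSum]
    unfold lev
    exact sum_congr rfl fun u _ => hxx c (by omega) u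
  have hx0' : x0 ≠ 0 := by
    intro h
    apply hbase
    rw [← hx0v, h]
    rfl
  obtain ⟨Λ, hΛ1, hΛ2, hΛ3⟩ := exists_functional Γ hΓfin x0 hx0'
  obtain ⟨D, hD0, γ, hγ, hβγ⟩ := exists_multiple (Λ x0) (hΛ1 _) hΛ2
  obtain ⟨K, hKfin, hK⟩ := exists_field Γ hΓfin Λ hΛ1
  refine ⟨D, γ, K, fun M u => Λ (xx M u), hD0, hγ, hKfin, fun _ _ => hΛ1 _, fun _ _ => hK _,
    ?_, ?_⟩
  · intro M Ψ hM hΨ h0
    have h1 := hΛ3 ((range M).filter (fun u => Nat.Coprime u M)) Ψ (fun u => xx M u)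
      (fun u hu => hΨ u (mem_filter.1 hu).2) (by
        rw [← h0]
        unfold lev
        refine sum_congr rfl fun u _ => ?_
        rw [hxx M hM]
        ring)
    rw [← h1]
    exact sum_congr rfl fun u _ => mul_comm _ _
  · intro S hS b x y hb hx hxi hyi hE
    set M : ℕ := c * ∏ q ∈ S, q with hM
    have hM0 : 0 < M := Nat.mul_pos (by omega) (prod_pos fun q hq => (hS q hq).1.pos)
    have hbC : (b : ℂ) ≠ 0 := by exact_mod_cast hb
    have hy0 : y ≠ 0 := by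
      rintro rfl
      rw [zero_mul] at hE
      exact mul_ne_zero hbC hx hE.symm
    have hEalg : IsAlgebraic ℚ (∏ q ∈ S, EF m cc e χ₀ q) := by
      have h1 : ∏ q ∈ S, EF m cc e χ₀ q = (b : ℂ) * x * y⁻¹ := by
        rw [← hE]
        field_simp
      rw [h1]
      have h2 : IsAlgebraic ℚ (b : ℂ) := by
        have : (b : ℂ) = algebraMap ℚ ℂ (b : ℚ) := by simp
        rw [this]
        exact isAlgebraic_algebraMap _
      exact (h2.mul (hxi.tower_top (A := ℚ)).isAlgebraic).mul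
        (hyi.tower_top (A := ℚ)).isAlgebraic.inv
    have hlev := lev_many hκ (by omega : 0 < c) χ₀⁻¹ S hS
    have hrel : ∑ u ∈ (range M).filter (fun u => Nat.Coprime u M), (xx M u : ℂ) =
        (∏ q ∈ S, EF m cc e χ₀ q) * (x0 : ℂ) := by
      rw [hx0v]
      have h1 : lev κ M (fun u => χ₀⁻¹ (u : ZMod c)) =
          ∑ u ∈ (range M).filter (fun u => Nat.Coprime u M), (xx M u : ℂ) := by
        unfold lev
        refine sum_congr rfl fun u _ => ?_
        show χ₀⁻¹ (u : ZMod c) * κ M u = _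
        rw [hxx M hM0, MulChar.inv_apply_eq_inv']
      have h2 : lev κ c (fun u => χ₀⁻¹ (u : ZMod c)) =
          lev κ c (fun u => (χ₀ (u : ZMod c))⁻¹) := by
        congr 1
        funext u
        rw [MulChar.inv_apply_eq_inv']
      rw [← h1, hlev, h2]
      congr 1
      refine prod_congr rfl fun q _ => ?_
      unfold EF
      rw [MulChar.inv_apply_eq_inv', inv_inv]
    have h3 := hΛ3 (insertNone ((range M).filter (fun u => Nat.Coprime u M)))
      (fun o : Option ℕ => o.elim (-(∏ q ∈ S, EF m cc e χ₀ q)) (fun _ => 1))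
      (fun o : Option ℕ => o.elim x0 (fun u => xx M u)) (by
        rintro (_ | u) _
        · exact hEalg.neg
        · exact isAlgebraic_one) (by
        rw [sum_insertNone]
        simp only [Option.elim_none, Option.elim_some, one_mul]
        rw [hrel]
        ring)
    rw [sum_insertNone] at h3
    simp only [Option.elim_none, Option.elim_some, one_mul] at h3
    have h4 : ∑ u ∈ (range M).filter (fun u => Nat.Coprime u M), Λ (xx M u) =
        (∏ q ∈ S, EF m cc e χ₀ q) * Λ x0 := by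
      linear_combination h3
    rw [h4]
    push_cast
    linear_combination (D : ℂ) * hE + (∏ q ∈ S, EF m cc e χ₀ q) * y * hβγ

end Pool.Agent.Y194.UQ
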